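import Pool.Agent.Lib.MP_480559_an.IsoC

/-!
Neither the pressure function nor the unmarked periodic data determine a smooth area-preserving
Anosov diffeomorphism of the two-torus up to smooth conjugacy within its homotopy class.

The maps are two lifts of the square of one map through the eightfold cover
`(x, y) ↦ (2 x, 4 y)`; they differ by a deck translation of order four and have the same square.
-/

open MeasureTheory Pool.Agent.Lib.MP_480559_an

namespace Pool.Agent.Results.MP_480559_an.Isospectral

/-- `f` and `g` have the same unmarked periodic data: for every `n` some bijection between the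
fixed points of the `n`-th iterates matches the derivatives up to linear conjugacy. -/
def SamePeriodicData (f g : Torus → Torus) : Prop :=
  ∀ n : ℕ, ∃ e : {p : Torus // f^[n] p = p} ≃ {p : Torus // g^[n] p = p},
    ∀ p : {p : Torus // f^[n] p = p}, ∃ A : Plane ≃L[ℝ] Plane, ∀ v : Plane,
      A (D f^[n] p.1 v) = D g^[n] (e p).1 (A v)

theorem result :
    ∃ (f g : Torus ≃ₜ Torus) (Es Eu Es' Eu' : Torus → Submodule ℝ Plane),
      IsDiffeo ((⊤ : ℕ∞) : WithTop ℕ∞) f ∧ IsDiffeo ((⊤ : ℕ∞) : WithTop ℕ∞) g ∧
      MeasurePreserving f (volume : Measure Torus) (volume : Measure Torus) ∧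
      MeasurePreserving g (volume : Measure Torus) (volume : Measure Torus) ∧
      IsAnosovSplitting f Es Eu ∧ IsAnosovSplitting g Es' Eu' ∧
      ContinuousMap.Homotopic (f : C(Torus, Torus)) (g : C(Torus, Torus)) ∧
      (∀ t : ℝ, pressure f (geomPotential f Eu t) = pressure g (geomPotential g Eu' t)) ∧
      SamePeriodicData f g ∧
      ∀ r : WithTop ℕ∞, 1 ≤ r → ∀ h : Torus ≃ₜ Torus, IsDiffeo r h →
        (¬ ∀ p : Torus, h (f p) = g (h p)) ∧ (¬ ∀ p : Torus, h (f p) = g.symm (h p)) := by
  obtain ⟨s, r, hs, hA⟩ := exists_splitting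
  exact ⟨ft 1 0, ft 7 3, lineS (r ∘ cov), lineU (s ∘ cov), lineS (r ∘ cov), lineU (s ∘ cov),
    (good_ft 1 0).isDiffeo, (good_ft 7 3).isDiffeo, (good_ft 1 0).area, (good_ft 7 3).area,
    hA 1 0, hA 7 3, homotopic_ft 1 0 7 3, fun t => pressure_ft hs t 1 0 7 3, periodic_data,
    fun k hk h hh => ⟨iso_not_conj (hh.1.diffLift hk) (hh.2.diffLift hk),
      iso_not_conj_inv (hh.1.diffLift hk) (hh.2.diffLift hk)⟩⟩

end Pool.Agent.Results.MP_480559_an.Isospectral
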